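import Pool.Agent.H799Z.BoxMain

set_option autoImplicit false

namespace Pool.Agent.Results.MP_732a28_gt.AGapUnbounded

open Pool.Agent.H799Z.Box

/-- For every `n` some finite graph `G` has `coind B(G) ≤ 1` and `coind B₀(G) ≥ n`; so the gap
`coind B₀(G) - coind B(G)` is at least `n - 1`. -/
theorem result (n : ℕ) : ∃ (V : Type) (_ : Fintype V) (G : SimpleGraph V),
    coind (realization (SimplexB G)) ≤ 1 ∧ (n : EReal) ≤ coind (realization (SimplexB0 G)) := by
  obtain ⟨V, hV, G, h1, h2⟩ := main n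
  refine ⟨V, hV, G, sSup_le ?_, le_sSup (Or.inr ⟨n, rfl, h1⟩)⟩
  rintro r (hr | ⟨k, rfl, hk⟩)
  · rw [Set.mem_singleton_iff.1 hr]
    exact (EReal.neg_le.2 (by rw [neg_zero]; exact zero_le_one)).trans zero_le_one
  · have : k ≤ 1 := by
      by_contra h
      exact h2 k (by omega) hk
    exact_mod_cast this

end Pool.Agent.Results.MP_732a28_gt.AGapUnbounded
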